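import Pool.Agent.H82.G4.Targets

/-! Theorem G, group G4: row SXB. -/

set_option autoImplicit false

namespace Pool.Agent.H65.G4.SXB

open MeasureTheory Set
open Pool.Agent.H82.G4 Pool.Agent.H83.G
open scoped ENNReal NNReal

private theorem sum_sup_le {ι α : Type*} (J : Finset ι) (S : ι → Set α)
    (hS : ∀ j, (S j).Nonempty) (g : α → ℝ≥0∞) (B : ℝ≥0∞)
    (h : ∀ i : (j : ι) → S j, ∑ j ∈ J, g (i j) ≤ B) : ∑ j ∈ J, ⨆ z : S j, g z ≤ B := by
  classical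
  have hne : Nonempty ((j : ι) → S j) := ⟨fun j => ⟨(hS j).some, (hS j).some_mem⟩⟩
  have h1 : ∀ j, (⨆ z : S j, g z) = ⨆ i : (j : ι) → S j, g (i j) := by
    intro j
    have hsurj : Function.Surjective (fun i : (j : ι) → S j => i j) := by
      intro z
      obtain ⟨i0⟩ := hne
      exact ⟨Function.update i0 j z, by simp⟩
    exact (hsurj.iSup_comp (fun z : S j => g z)).symm
  have h2 : ∑ j ∈ J, ⨆ z : S j, g z = ⨆ i : (j : ι) → S j, ∑ j ∈ J, g (i j) := by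
    rw [Finset.sum_congr rfl (fun j _ => h1 j)]
    apply ENNReal.finsetSum_iSup
    intro a b
    refine ⟨fun j => if g (a j) ≤ g (b j) then b j else a j, fun j => ?_⟩
    dsimp only
    split_ifs with hab
    · exact ⟨hab, le_rfl⟩
    · exact ⟨le_rfl, (not_le.mp hab).le⟩
  rw [h2]
  exact iSup_le h

private theorem abs_ge {q : ℕ} (a b : ℤ) (h : (a : ZMod q) = (b : ZMod q)) (hne : a ≠ b) :
    (q : ℝ) ≤ |(a : ℝ) - (b : ℝ)| := by
  have h1 : (q : ℤ) ∣ b - a := (ZMod.intCast_eq_intCast_iff_dvd_sub a b q).mp h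
  have h2 : b - a ≠ 0 := sub_ne_zero.mpr (Ne.symm hne)
  have h3 : (q : ℤ) ≤ |b - a| := Int.le_of_dvd (abs_pos.mpr h2) ((dvd_abs _ _).mpr h1)
  have h4 : (q : ℤ) ≤ |a - b| := by rw [abs_sub_comm]; exact h3
  exact_mod_cast h4

/-- residues -/
private def res (q m : ℕ) (j : Zi m) : ZMod q × (Fin m → ZMod q) × ZMod q :=
  ((j.1 : ZMod q), (fun i => (j.2.1 i : ZMod q)), (j.2.2 : ZMod q))

private theorem zc_sep {q m : ℕ} (j j' : Zi m) (h : res q m j = res q m j') (hne : j ≠ j') :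
    (q : ℝ) ≤ ‖zc j - zc j'‖ := by
  have h1 : (j.1 : ZMod q) = (j'.1 : ZMod q) := congrArg Prod.fst h
  have h2 : (fun i => (j.2.1 i : ZMod q)) = fun i => (j'.2.1 i : ZMod q) :=
    congrArg (fun x => x.2.1) h
  have h3 : (j.2.2 : ZMod q) = (j'.2.2 : ZMod q) := congrArg (fun x => x.2.2) h
  by_cases e1 : j.1 = j'.1
  · by_cases e3 : j.2.2 = j'.2.2
    · have e2 : ∃ i, j.2.1 i ≠ j'.2.1 i := by
        by_contra hc
        push Not at hc
        exact hne (Prod.ext e1 (Prod.ext (funext hc) e3))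
      obtain ⟨i, hi⟩ := e2
      have h4 := abs_ge (j.2.1 i) (j'.2.1 i) (congrFun h2 i) hi
      have h5 : ‖(zc j - zc j').2.1 i‖ ≤ ‖(zc j - zc j').2.1‖ := PiLp.norm_apply_le _ i
      have h6 : (zc j - zc j').2.1 i = (j.2.1 i : ℝ) - (j'.2.1 i : ℝ) := by
        simp [zc]
      rw [h6, Real.norm_eq_abs] at h5
      exact h4.trans (h5.trans ((norm_fst_le _).trans (norm_snd_le _)))
    · have h4 := abs_ge (j.2.2) (j'.2.2) h3 e3
      have h5 : ‖(zc j - zc j').2.2‖ ≤ ‖zc j - zc j'‖ := (norm_snd_le _).trans (norm_snd_le _)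
      have h6 : (zc j - zc j').2.2 = (j.2.2 : ℝ) - (j'.2.2 : ℝ) := by
        simp [zc]
      rw [h6, Real.norm_eq_abs] at h5
      exact h4.trans h5
  · have h4 := abs_ge (j.1) (j'.1) h1 e1
    have h5 : ‖(zc j - zc j').1‖ ≤ ‖zc j - zc j'‖ := norm_fst_le _
    have h6 : (zc j - zc j').1 = (j.1 : ℝ) - (j'.1 : ℝ) := by
      simp [zc]
    rw [h6, Real.norm_eq_abs] at h5
    exact h4.trans h5

private theorem pt_sep {m : ℕ} (K : ℝ) (hK : 1 ≤ K) (j j' : Zi m)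
    (h : res (2 * m + 3) m j = res (2 * m + 3) m j') (hne : j ≠ j') (z z' : Z m)
    (hz : ‖K⁻¹ ^ 2 • z - zc j‖ ≤ (m : ℝ) + 1) (hz' : ‖K⁻¹ ^ 2 • z' - zc j'‖ ≤ (m : ℝ) + 1) :
    1 ≤ ‖z - z'‖ := by
  have h1 := zc_sep j j' h hne
  have h2 : zc j - zc j' = K⁻¹ ^ 2 • (z - z') - (K⁻¹ ^ 2 • z - zc j) + (K⁻¹ ^ 2 • z' - zc j') := by
    rw [smul_sub]; abel
  have h3 : ‖zc j - zc j'‖ ≤ ‖K⁻¹ ^ 2 • (z - z')‖ + ‖K⁻¹ ^ 2 • z - zc j‖ +
      ‖K⁻¹ ^ 2 • z' - zc j'‖ := by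
    rw [h2]
    exact (norm_add_le _ _).trans (add_le_add (norm_sub_le _ _) le_rfl)
  have h4 : ‖K⁻¹ ^ 2 • (z - z')‖ = K⁻¹ ^ 2 * ‖z - z'‖ := by
    rw [norm_smul, Real.norm_eq_abs, abs_of_nonneg (by positivity)]
  have h5 : K⁻¹ ^ 2 ≤ 1 := pow_le_one₀ (by positivity) (inv_le_one_of_one_le₀ hK)
  have h6 : K⁻¹ ^ 2 * ‖z - z'‖ ≤ ‖z - z'‖ := mul_le_of_le_one_left (norm_nonneg _) h5
  push_cast at h1
  linarith

theorem pf_SXB : T_SXB := by
  classical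
  intro m P hP
  refine ⟨(Fintype.card (ZMod (2 * m + 3) × (Fin m → ZMod (2 * m + 3)) × ZMod (2 * m + 3)) : ℝ≥0),
    fun K f hK => ?_⟩
  have hM : ∀ j : Zi m, Mj K f j ^ P =
      ⨆ z : {z : Z m | ‖K⁻¹ ^ 2 • z - zc j‖ ≤ (m : ℝ) + 1}, ‖f z‖ₑ ^ P := by
    intro j
    have h1 : Mj K f j = ⨆ z : {z : Z m | ‖K⁻¹ ^ 2 • z - zc j‖ ≤ (m : ℝ) + 1}, ‖f z‖ₑ := by
      unfold Mj
      rw [iSup_subtype']
      rfl
    rw [h1]
    exact (ENNReal.orderIsoRpow P hP).map_iSup _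
  rw [ENNReal.tsum_eq_iSup_sum]
  apply iSup_le
  intro J
  rw [← Finset.sum_fiberwise J (res (2 * m + 3) m)]
  have hcl : ∀ c : ZMod (2 * m + 3) × (Fin m → ZMod (2 * m + 3)) × ZMod (2 * m + 3),
      ∑ j ∈ J with res (2 * m + 3) m j = c, Mj K f j ^ P ≤ SX P f := by
    intro c
    rw [Finset.sum_congr rfl (fun j _ => hM j)]
    apply sum_sup_le (J.filter (fun j => res (2 * m + 3) m j = c))
      (fun j => {z : Z m | ‖K⁻¹ ^ 2 • z - zc j‖ ≤ (m : ℝ) + 1})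
      (fun j => ⟨K ^ 2 • zc j, by
        have hK0 : K ≠ 0 := by positivity
        have : K⁻¹ ^ 2 • K ^ 2 • zc j = zc j := by
          rw [smul_smul, ← mul_pow, inv_mul_cancel₀ hK0, one_pow, one_smul]
        simp only [Set.mem_ofPred_eq, this, sub_self, norm_zero]
        positivity⟩) (fun z => ‖f z‖ₑ ^ P)
    intro i
    have hinj : Set.InjOn (fun j => ((i j : {z : Z m | ‖K⁻¹ ^ 2 • z - zc j‖ ≤ (m : ℝ) + 1}) : Z m))
        (J.filter (fun j => res (2 * m + 3) m j = c)) := by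
      intro j hj j' hj' he
      by_contra hne
      have hj1 := (Finset.mem_filter.mp (Finset.mem_coe.mp hj)).2
      have hj2 := (Finset.mem_filter.mp (Finset.mem_coe.mp hj')).2
      have := pt_sep K hK j j' (hj1.trans hj2.symm) hne _ _ (i j).2 (i j').2
      dsimp only at he
      rw [he, sub_self, norm_zero] at this
      linarith
    rw [← Finset.sum_image (f := fun z : Z m => ‖f z‖ₑ ^ P) hinj]
    have hSep : Sep ((J.filter (fun j => res (2 * m + 3) m j = c)).image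
        (fun j => ((i j : {z : Z m | ‖K⁻¹ ^ 2 • z - zc j‖ ≤ (m : ℝ) + 1}) : Z m))) := ?_
    · unfold SX
      exact le_iSup₂ (f := fun (X : Finset (Z m)) (_ : Sep X) => ∑ z ∈ X, ‖f z‖ₑ ^ P) _ hSep
    intro z hz z' hz' hne
    obtain ⟨j, hj, rfl⟩ := Finset.mem_image.mp hz
    obtain ⟨j', hj', rfl⟩ := Finset.mem_image.mp hz'
    have hj1 := (Finset.mem_filter.mp hj).2
    have hj2 := (Finset.mem_filter.mp hj').2
    have hjne : j ≠ j' := by
      rintro rfl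
      exact hne rfl
    exact pt_sep K hK j j' (hj1.trans hj2.symm) hjne _ _ (i j).2 (i j').2
  calc _ ≤ ∑ _c : ZMod (2 * m + 3) × (Fin m → ZMod (2 * m + 3)) × ZMod (2 * m + 3), SX P f :=
        Finset.sum_le_sum (fun c _ => hcl c)
    _ = _ := by
      rw [Finset.sum_const, nsmul_eq_mul, Finset.card_univ]
      rfl

end Pool.Agent.H65.G4.SXB
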