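import Pool.Agent.H82.G4.Targets

/-! Theorem G, group G4: row SXF. -/

set_option autoImplicit false

namespace Pool.Agent.H65.G4.SXF

open MeasureTheory Set
open Pool.Agent.H82.G4 Pool.Agent.H83.G
open scoped ENNReal NNReal

/-- the weight of the cell `i` seen from the cell `j` -/
private theorem wt_le {m N : ℕ} (x a b : Z m) (hi : ‖x - a‖ ≤ (m : ℝ) + 1) :
    wt N (x - b) ≤ ((m : ℝ) + 2) ^ N * wt N (a - b) := by
  unfold wt
  have h1 : ‖a - b‖ ≤ ‖x - a‖ + ‖x - b‖ := by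
    have : a - b = -(x - a) + (x - b) := by abel
    rw [this]
    exact (norm_add_le _ _).trans (by rw [norm_neg])
  have h2 : 1 + ‖a - b‖ ≤ ((m : ℝ) + 2) * (1 + ‖x - b‖) := by
    have h3 : 0 ≤ ((m : ℝ) + 1) * ‖x - b‖ := by positivity
    nlinarith
  have h4 : (1 + ‖a - b‖) ^ N ≤ ((m : ℝ) + 2) ^ N * (1 + ‖x - b‖) ^ N := by
    rw [← mul_pow]
    exact pow_le_pow_left₀ (by positivity) h2 N
  have h5 : 0 < (1 + ‖a - b‖) ^ N := by positivity
  have h6 : 0 < (1 + ‖x - b‖) ^ N := by positivity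
  rw [← div_eq_mul_inv, le_div_iff₀ h5, inv_mul_le_iff₀ h6]
  linarith

private theorem dec {m M : ℕ} (D : ℝ) (hD : 0 ≤ D) :
    ((1 + max (D - ((m : ℝ) + 1)) 0) ^ M)⁻¹ ≤ ((m : ℝ) + 2) ^ M * ((1 + D) ^ M)⁻¹ := by
  have h1 : 1 + D ≤ ((m : ℝ) + 2) * (1 + max (D - ((m : ℝ) + 1)) 0) := by
    have hm : (0 : ℝ) ≤ m := Nat.cast_nonneg m
    rcases le_total (D - ((m : ℝ) + 1)) 0 with h | h
    · rw [max_eq_right h]; linarith
    · rw [max_eq_left h]; nlinarith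
  have h2 : (1 + D) ^ M ≤ ((m : ℝ) + 2) ^ M * (1 + max (D - ((m : ℝ) + 1)) 0) ^ M := by
    rw [← mul_pow]
    exact pow_le_pow_left₀ (by positivity) h1 M
  have h0 : 0 < 1 + max (D - ((m : ℝ) + 1)) 0 := by
    have := le_max_right (D - ((m : ℝ) + 1)) 0
    linarith
  have h5 : 0 < (1 + D) ^ M := by positivity
  have h6 : 0 < (1 + max (D - ((m : ℝ) + 1)) 0) ^ M := by positivity
  rw [← div_eq_mul_inv, le_div_iff₀ h5, inv_mul_le_iff₀ h6]
  linarith

theorem pf_SXF (hSXB : T_SXB) (hWT1 : T_WT1) (hWT3 : T_WT3) : T_SXF := by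
  classical
  intro m N P hN hP
  obtain ⟨CB, hCB⟩ := hSXB m P (by linarith)
  obtain ⟨C3, -, hC3, -, -, hnear⟩ := hWT3 m N hN
  obtain ⟨hw0, -, -, -, -, -, -⟩ := hWT1 m N
  set c : ℝ := ((m : ℝ) + 2) ^ (N * P : ℝ) with hc
  have hcpos : 0 < c := by positivity
  refine ⟨c * C3 * ((m : ℝ) + 2) ^ (N - (m + 3)) * CB + 1, by positivity, fun K D f hK hD => ?_⟩
  set ρ : ℝ := max (D - ((m : ℝ) + 1)) 0 with hρ
  have hρ0 : 0 ≤ ρ := le_max_right _ _
  set Sf : Zi m → Set (Zi m) := fun i => {j | ρ ≤ ‖zc i - zc j‖} with hSf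
  -- the pointwise bound
  have hpt : ∀ j : Zi m, aw N K D f j ^ P ≤ ∑' i : Zi m, Mj K f i ^ P *
      (ENNReal.ofReal c * (Sf i).indicator (fun j => ENNReal.ofReal (wt N (zc i - zc j))) j) := by
    intro j
    have h1 : ∀ z : Z m, D ≤ ‖K⁻¹ ^ 2 • z - zc j‖ →
        (‖f z‖ₑ * ENNReal.ofReal (wt N (K⁻¹ ^ 2 • z - zc j))) ^ P ≤ ∑' i : Zi m, Mj K f i ^ P *
        (ENNReal.ofReal c * (Sf i).indicator (fun j => ENNReal.ofReal (wt N (zc i - zc j))) j) := by
      intro z hz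
      obtain ⟨i, hi⟩ := hnear (K⁻¹ ^ 2 • z)
      refine le_trans ?_ (ENNReal.le_tsum i)
      have h2 : ‖f z‖ₑ ≤ Mj K f i := by
        unfold Mj
        exact le_iSup₂ (f := fun (z : Z m) (_ : ‖K⁻¹ ^ 2 • z - zc i‖ ≤ (m : ℝ) + 1) => ‖f z‖ₑ) z hi
      have hdist : ‖K⁻¹ ^ 2 • z - zc j‖ ≤ ((m : ℝ) + 1) + ‖zc i - zc j‖ := by
        have : K⁻¹ ^ 2 • z - zc j = (K⁻¹ ^ 2 • z - zc i) + (zc i - zc j) := by abel
        rw [this]
        exact (norm_add_le _ _).trans (by linarith)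
      have hmem : j ∈ Sf i := by
        show ρ ≤ ‖zc i - zc j‖
        rw [hρ]
        exact max_le (by linarith) (norm_nonneg _)
      rw [Set.indicator_of_mem hmem, ENNReal.mul_rpow_of_nonneg _ _ (by linarith)]
      apply mul_le_mul' (ENNReal.rpow_le_rpow h2 (by linarith))
      have h3 := wt_le (N := N) (K⁻¹ ^ 2 • z) (zc i) (zc j) hi
      have hw := hw0 (zc i - zc j)
      have hw' := hw0 (K⁻¹ ^ 2 • z - zc j)
      rw [ENNReal.ofReal_rpow_of_pos hw'.1, ← ENNReal.ofReal_mul hcpos.le]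
      apply ENNReal.ofReal_le_ofReal
      calc wt N (K⁻¹ ^ 2 • z - zc j) ^ P ≤ (((m : ℝ) + 2) ^ N * wt N (zc i - zc j)) ^ P :=
            Real.rpow_le_rpow hw'.1.le h3 (by linarith)
        _ = c * wt N (zc i - zc j) ^ P := by
            rw [Real.mul_rpow (by positivity) hw.1.le, hc, Real.rpow_mul (by positivity),
              Real.rpow_natCast]
        _ ≤ c * wt N (zc i - zc j) := by
            apply mul_le_mul_of_nonneg_left _ hcpos.le
            calc wt N (zc i - zc j) ^ P ≤ wt N (zc i - zc j) ^ (1 : ℝ) :=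
                  Real.rpow_le_rpow_of_exponent_ge hw.1 hw.2 hP
              _ = _ := Real.rpow_one _
    have hP0 : 0 < P := by linarith
    have h4 : aw N K D f j ≤ (∑' i : Zi m, Mj K f i ^ P *
        (ENNReal.ofReal c *
          (Sf i).indicator (fun j => ENNReal.ofReal (wt N (zc i - zc j))) j)) ^ (1 / P) := by
      unfold aw
      apply iSup₂_le
      intro z hz
      have h5 := ENNReal.rpow_le_rpow (h1 z hz) (show 0 ≤ 1 / P by positivity)
      rwa [← ENNReal.rpow_mul, mul_one_div_cancel hP0.ne', ENNReal.rpow_one] at h5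
    have h6 := ENNReal.rpow_le_rpow h4 hP0.le
    rwa [← ENNReal.rpow_mul, one_div_mul_cancel hP0.ne', ENNReal.rpow_one] at h6
  -- the inner sums
  have hin : ∀ i : Zi m, ∑' j : Zi m,
      (Sf i).indicator (fun j => ENNReal.ofReal (wt N (zc i - zc j))) j ≤
      C3 * ENNReal.ofReal (((m : ℝ) + 2) ^ (N - (m + 3)) * ((1 + D) ^ (N - (m + 3)))⁻¹) := by
    intro i
    rw [← tsum_subtype (Sf i) (fun j => ENNReal.ofReal (wt N (zc i - zc j)))]
    refine (hC3 (zc i) ρ (Sf i) hρ0 (fun l hl => hl)).trans ?_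
    apply mul_le_mul' le_rfl
    apply ENNReal.ofReal_le_ofReal
    have h1 : (1 + ρ) ^ (m + 3) * ((1 + ρ) ^ N)⁻¹ = ((1 + ρ) ^ (N - (m + 3)))⁻¹ := by
      have hpos : 0 < 1 + ρ := by linarith
      have h2 : (1 + ρ) ^ N = (1 + ρ) ^ (m + 3) * (1 + ρ) ^ (N - (m + 3)) := by
        rw [← pow_add]; congr 1; omega
      rw [h2, mul_inv, ← mul_assoc, mul_inv_cancel₀ (by positivity), one_mul]
    rw [h1]
    exact dec D hD
  calc ∑' j : Zi m, aw N K D f j ^ P
      ≤ ∑' j : Zi m, ∑' i : Zi m, Mj K f i ^ P * (ENNReal.ofReal c *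
        (Sf i).indicator (fun j => ENNReal.ofReal (wt N (zc i - zc j))) j) :=
        ENNReal.tsum_le_tsum hpt
    _ = ∑' i : Zi m, Mj K f i ^ P * (ENNReal.ofReal c * ∑' j : Zi m,
        (Sf i).indicator (fun j => ENNReal.ofReal (wt N (zc i - zc j))) j) := by
        rw [ENNReal.tsum_comm]
        apply tsum_congr
        intro i
        rw [ENNReal.tsum_mul_left, ENNReal.tsum_mul_left]
    _ ≤ ∑' i : Zi m, Mj K f i ^ P * (ENNReal.ofReal c * (C3 *
        ENNReal.ofReal (((m : ℝ) + 2) ^ (N - (m + 3)) * ((1 + D) ^ (N - (m + 3)))⁻¹))) :=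
        ENNReal.tsum_le_tsum (fun i => mul_le_mul' le_rfl (mul_le_mul' le_rfl (hin i)))
    _ = (∑' i : Zi m, Mj K f i ^ P) * (ENNReal.ofReal c * (C3 *
        ENNReal.ofReal (((m : ℝ) + 2) ^ (N - (m + 3)) * ((1 + D) ^ (N - (m + 3)))⁻¹))) :=
        ENNReal.tsum_mul_right
    _ ≤ (CB * SX P f) * (ENNReal.ofReal c * (C3 *
        ENNReal.ofReal (((m : ℝ) + 2) ^ (N - (m + 3)) * ((1 + D) ^ (N - (m + 3)))⁻¹))) :=
        mul_le_mul' (hCB K f hK) le_rfl
    _ = ENNReal.ofReal (c * C3 * ((m : ℝ) + 2) ^ (N - (m + 3)) * CB *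
        ((1 + D) ^ (N - (m + 3)))⁻¹) * SX P f := by
        have e1 : c * C3 * ((m : ℝ) + 2) ^ (N - (m + 3)) * CB * ((1 + D) ^ (N - (m + 3)))⁻¹ =
          CB * (c * (C3 * (((m : ℝ) + 2) ^ (N - (m + 3)) * ((1 + D) ^ (N - (m + 3)))⁻¹))) := by ring
        rw [e1, ENNReal.ofReal_mul (p := (CB : ℝ)) (by positivity),
          ENNReal.ofReal_mul (p := c) hcpos.le, ENNReal.ofReal_mul (p := (C3 : ℝ)) (by positivity)]
        simp only [ENNReal.ofReal_coe_nnreal]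
        ring
    _ ≤ _ := by
        apply mul_le_mul' _ le_rfl
        apply ENNReal.ofReal_le_ofReal
        apply mul_le_mul_of_nonneg_right _ (by positivity)
        linarith

end Pool.Agent.H65.G4.SXF
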